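import Pool.Agent.Helper35.KM.NoRel
import Pool.Agent.Helper79.KN.Defs

/-!
K4, block B: a multiplicative relation between the eigenvalues, on all the spaces `V_x` together, of all the elements of a
group whose Zariski closure contains the product of the special linear groups is constant on the blocks, up to a permutation
of the eigenvalues.
-/

set_option autoImplicit false

open Matrix H77MT MvPolynomial

namespace Pool.Agent.Helper48.K4

open Pool.Agent.Helper35.KM Pool.Agent.Helper53.KM Pool.Agent.Helper79.KN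

variable {n X : Type} [Fintype n] [DecidableEq n] [Fintype X] [DecidableEq X]

/-- an integral vector, with the sum zero on all blocks, outside finitely many hyperplanes -/
theorem exists_vec_fam (m : n × X → ℤ) (hm : ∀ σ : Equiv.Perm (n × X), ∃ x i j, m (σ (i, x)) ≠ m (σ (j, x))) :
    ∃ E : n × X → ℤ, (∀ x, ∑ i, E (i, x) = 0) ∧ ∀ σ : Equiv.Perm (n × X), ∑ p, E (σ p) * m p ≠ 0 := by
  let f : Equiv.Perm (n × X) → Module.Dual ℚ (n × X → ℚ) := fun σ => ∑ p, (m p : ℚ) • LinearMap.proj (σ p)
  have hf : ∀ σ (w : n × X → ℚ), f σ w = ∑ p, w (σ p) * m p := by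
    intro σ w
    simp [f, mul_comm]
  let s : (n × X → ℚ) →ₗ[ℚ] (X → ℚ) := LinearMap.pi fun x => ∑ i, LinearMap.proj (i, x)
  have hs : ∀ (w : n × X → ℚ) x, s w x = ∑ i, w (i, x) := by
    intro w x
    simp [s]
  obtain ⟨w, hw, hwf⟩ := Module.Dual.exists_forall_mem_ne_zero_of_forall_exists (LinearMap.ker s) f (by
    intro σ
    obtain ⟨x, i, j, hij⟩ := hm σ.symm
    refine ⟨Pi.single (i, x) 1 - Pi.single (j, x) 1, ?_, ?_⟩
    · rw [LinearMap.mem_ker]
      funext y
      rw [hs, Pi.zero_apply]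
      by_cases hy : y = x
      · subst hy
        have h1 : ∀ k : n, ∑ l, (Pi.single (k, y) (1 : ℚ) : n × X → ℚ) (l, y) = 1 := by
          intro k
          rw [Finset.sum_eq_single k]
          · simp
          · intro l _ hl
            rw [Pi.single_eq_of_ne]
            intro h
            exact hl (Prod.ext_iff.1 h).1
          · simp
        simp only [Pi.sub_apply, Finset.sum_sub_distrib, h1, sub_self]
      · refine Finset.sum_eq_zero fun l _ => ?_
        rw [Pi.sub_apply, Pi.single_eq_of_ne (fun h => hy (Prod.ext_iff.1 h).2),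
          Pi.single_eq_of_ne (fun h => hy (Prod.ext_iff.1 h).2), sub_self]
    · rw [hf]
      have h1 : ∀ q : n × X, ∑ p, (Pi.single q (1 : ℚ) : n × X → ℚ) (σ p) * m p = m (σ.symm q) := by
        intro q
        rw [Finset.sum_eq_single (σ.symm q)]
        · simp
        · intro p _ hp
          rw [Pi.single_eq_of_ne, zero_mul]
          intro h
          exact hp (by rw [← h, Equiv.symm_apply_apply])
        · simp
      simp only [Pi.sub_apply, sub_mul, Finset.sum_sub_distrib, h1]
      exact sub_ne_zero.2 (by exact_mod_cast hij))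
  rw [LinearMap.mem_ker] at hw
  set D : ℕ := ∏ p, (w p).den with hD
  have hD0 : (D : ℚ) ≠ 0 := by
    rw [hD]
    exact_mod_cast Finset.prod_ne_zero_iff.2 fun p _ => (w p).den_nz
  have hE : ∀ p, ∃ E : ℤ, (E : ℚ) = D * w p := by
    intro p
    obtain ⟨c, hc⟩ := Finset.dvd_prod_of_mem (fun p => (w p).den) (Finset.mem_univ p)
    refine ⟨c * (w p).num, ?_⟩
    rw [hD, hc]
    push_cast
    have h1 : (w p) * (w p).den = (w p).num := Rat.mul_den_eq_num (w p)
    rw [← h1]
    ring
  choose E hE using hE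
  refine ⟨E, fun x => ?_, fun σ h => hwf σ ?_⟩
  · have : ((∑ i, E (i, x) : ℤ) : ℚ) = 0 := by
      push_cast
      simp only [hE]
      rw [← Finset.mul_sum, ← hs, hw, Pi.zero_apply, mul_zero]
    exact_mod_cast this
  · have h1 : ((∑ p, E (σ p) * m p : ℤ) : ℚ) = D * ∑ p, w (σ p) * m p := by
      push_cast
      simp only [hE]
      rw [Finset.mul_sum]
      exact Finset.sum_congr rfl fun k _ => by ring
    rw [h, Int.cast_zero, eq_comm] at h1
    rw [hf]
    exact (mul_eq_zero.1 h1).resolve_left hD0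

variable {K : Type} [Field K] {Γ : Type} [Group Γ]

/-- a multiplicative relation between the eigenvalues of all elements, on all blocks, is constant on the blocks up to a
permutation -/
theorem no_rel_fam [CharZero K] {ρ : Rep Γ X n K} {Δ : Subgroup Γ}
    (hfull : ∀ M : X → Matrix n n K, (∀ x, (M x).det = 1) → blockDiagonal M ∈ zcl (img ρ Δ)) (m : n × X → ℤ)
    (h : ∀ γ ∈ Δ, ∃ v : n × X → K, (mat ρ γ).charpoly = ∏ p, (Polynomial.X - Polynomial.C (v p)) ∧
      ∏ p, v p ^ m p = 1) : ∃ σ : Equiv.Perm (n × X), ∀ x i j, m (σ (i, x)) = m (σ (j, x)) := by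
  by_contra hne
  push Not at hne
  obtain ⟨E, hE, hEm⟩ := exists_vec_fam m hne
  obtain ⟨P, hP⟩ := exists_sym (K := K) _ (rel_symm (fun i => (m i).toNat) fun i => (-m i).toNat)
  have h2 : (2 : K) ≠ 0 := two_ne_zero
  have hev : ∀ v : n × X → K, aeval v (rel (fun i => (m i).toNat) (fun i => (-m i).toNat) : MvPolynomial (n × X) K) =
      ∏ σ : Equiv.Perm (n × X), (∏ i, v (σ i) ^ (m i).toNat - ∏ i, v (σ i) ^ (-m i).toNat) := by
    intro v
    simp [rel]
  have hd : (blockDiagonal fun x => Matrix.diagonal fun i => (2 : K) ^ E (i, x)) =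
      Matrix.diagonal fun p : n × X => (2 : K) ^ E p := by
    rw [Matrix.blockDiagonal_diagonal]
  have h3 : ev (Matrix.diagonal fun p : n × X => (2 : K) ^ E p) P = 0 := by
    rw [← hd]
    refine hfull _ (fun x => ?_) P ?_
    · rw [Matrix.det_diagonal, prod_zp _ _ h2, hE, zpow_zero]
    · rintro _ ⟨γ, hγ, rfl⟩
      obtain ⟨v, hv, hv1⟩ := h γ hγ
      have hu : IsUnit (mat ρ γ).det := by
        unfold mat
        rw [Matrix.det_blockDiagonal]
        exact isUnit_iff_ne_zero.2 (Finset.prod_ne_zero_iff.2 fun x _ =>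
          ((Matrix.isUnit_iff_isUnit_det _).1 (ρ x γ).isUnit).ne_zero)
      have hv0 : ∀ i, v i ≠ 0 := by
        intro i hi
        have h4 : (mat ρ γ).charpoly.eval 0 = 0 := by
          rw [hv, Polynomial.eval_prod]
          exact Finset.prod_eq_zero (Finset.mem_univ i) (by simp [hi])
        rw [← Polynomial.coeff_zero_eq_eval_zero] at h4
        have h5 := Matrix.det_eq_sign_charpoly_coeff (mat ρ γ)
        rw [h4, mul_zero] at h5
        exact hu.ne_zero h5
      rw [hP _ v hv, hev]
      exact Finset.prod_eq_zero (Finset.mem_univ 1) (sub_eq_zero.2 ((zpow_iff hv0 m).1 hv1))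
  rw [hP _ (fun i => (2 : K) ^ E i) (Matrix.charpoly_diagonal _), hev, Finset.prod_eq_zero_iff] at h3
  obtain ⟨σ, -, hσ⟩ := h3
  have h4 := (zpow_iff (v := fun i => (2 : K) ^ E (σ i)) (fun i => zpow_ne_zero _ h2) m).2 (sub_eq_zero.1 hσ)
  simp only [← _root_.zpow_mul] at h4
  rw [prod_zp _ _ h2] at h4
  exact hEm σ (zpow_two_eq h4)

/-- the characteristic polynomial of a block diagonal matrix -/
theorem charpoly_mat (ρ : Rep Γ X n K) (γ : Γ) (v : X → n → K)
    (hv : ∀ x, (ρ x γ : Matrix n n K).charpoly = ∏ i, (Polynomial.X - Polynomial.C (v x i))) :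
    (mat ρ γ).charpoly = ∏ p : n × X, (Polynomial.X - Polynomial.C (v p.2 p.1)) := by
  have h1 : (mat ρ γ).charmatrix = blockDiagonal fun x => (ρ x γ : Matrix n n K).charmatrix := by
    ext ⟨i, x⟩ ⟨j, y⟩
    rw [Matrix.charmatrix_apply, mat, Matrix.blockDiagonal_apply, Matrix.blockDiagonal_apply]
    by_cases h : x = y
    · subst h
      rw [if_pos rfl, if_pos rfl, Matrix.charmatrix_apply]
      congr 1
      by_cases hij : i = j
      · subst hij
        rw [Matrix.diagonal_apply_eq, Matrix.diagonal_apply_eq]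
      · rw [Matrix.diagonal_apply_ne _ hij, Matrix.diagonal_apply_ne _ (fun h => hij (Prod.ext_iff.1 h).1)]
    · rw [if_neg h, if_neg h, Matrix.diagonal_apply_ne _ (fun h' => h (Prod.ext_iff.1 h').2), map_zero, sub_zero]
  rw [Matrix.charpoly, h1, Matrix.det_blockDiagonal, Fintype.prod_prod_type_right]
  exact Finset.prod_congr rfl fun x _ => hv x

/-- **Block B.** Relations between all eigenvalues. -/
theorem no_rel_full [CharZero K] {ρ : Rep Γ X n K} {Δ : Subgroup Γ}
    (hfull : ∀ M : X → Matrix n n K, (∀ x, (M x).det = 1) → blockDiagonal M ∈ zcl (img ρ Δ)) (m : X → n → ℤ)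
    (h : ∀ γ ∈ Δ, ∃ v : X → n → K,
      (∀ x, (ρ x γ : Matrix n n K).charpoly = ∏ i, (Polynomial.X - Polynomial.C (v x i))) ∧
      ∏ x, ∏ i, v x i ^ m x i = 1) :
    ∃ σ : Equiv.Perm (n × X), ∀ x k l, m (σ (k, x)).2 (σ (k, x)).1 = m (σ (l, x)).2 (σ (l, x)).1 :=
  no_rel_fam hfull (fun p => m p.2 p.1) fun γ hγ => by
    obtain ⟨v, hv, hv1⟩ := h γ hγ
    refine ⟨fun p => v p.2 p.1, charpoly_mat ρ γ v hv, ?_⟩
    rw [Fintype.prod_prod_type_right]
    exact hv1

/-- a value which is taken at least once and less than `N` times: not constant on blocks -/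
theorem not_const' {m : X → n → ℤ} {a : ℤ} {x₀ : X} {k₀ : n} (h0 : m x₀ k₀ = a)
    (h2 : (Finset.univ.filter fun p : n × X => m p.2 p.1 = a).card < Fintype.card n) :
    ¬ ∃ σ : Equiv.Perm (n × X), ∀ x k l, m (σ (k, x)).2 (σ (k, x)).1 = m (σ (l, x)).2 (σ (l, x)).1 := by
  rintro ⟨σ, hσ⟩
  set q := σ.symm (k₀, x₀) with hq
  have h3 : ((Finset.univ : Finset n).image fun j => σ (j, q.2)).card = Fintype.card n := by
    rw [Finset.card_image_of_injective, Finset.card_univ]
    intro j k hjk
    exact (Prod.ext_iff.1 (σ.injective hjk)).1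
  have h4 : ((Finset.univ : Finset n).image fun j => σ (j, q.2)) ⊆
      Finset.univ.filter fun p : n × X => m p.2 p.1 = a := by
    intro p hp
    obtain ⟨j, -, rfl⟩ := Finset.mem_image.1 hp
    rw [Finset.mem_filter]
    refine ⟨Finset.mem_univ _, ?_⟩
    rw [hσ q.2 j q.1, Prod.mk.eta, hq, Equiv.apply_symm_apply]
    exact h0
  have h5 := Finset.card_le_card h4
  omega

/-- the value one is taken exactly by two: not constant on blocks -/
theorem not_const {N : ℕ} (hN : Fintype.card n = N) (h2 : 2 < N) {m : n × X → ℤ} {p q : n × X} (hpq : p ≠ q)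
    (hm : ∀ a, m a = 1 ↔ a = p ∨ a = q) : ¬ ∃ σ : Equiv.Perm (n × X), ∀ x i j, m (σ (i, x)) = m (σ (j, x)) := by
  rintro ⟨σ, hσ⟩
  have h1 : (Finset.univ.filter fun a => m a = 1).card = 2 := by
    have : (Finset.univ.filter fun a => m a = 1) = {p, q} := by
      ext a
      simp [hm]
    rw [this, Finset.card_pair hpq]
  have h3 : ((Finset.univ : Finset n).image fun j => σ (j, (σ.symm p).2)).card = N := by
    rw [Finset.card_image_of_injective, Finset.card_univ, hN]
    intro j k hjk
    exact (Prod.ext_iff.1 (σ.injective hjk)).1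
  have h4 : ((Finset.univ : Finset n).image fun j => σ (j, (σ.symm p).2)) ⊆ Finset.univ.filter fun a => m a = 1 := by
    intro a ha
    obtain ⟨j, -, rfl⟩ := Finset.mem_image.1 ha
    rw [Finset.mem_filter]
    refine ⟨Finset.mem_univ _, ?_⟩
    rw [hσ (σ.symm p).2 j (σ.symm p).1]
    rw [Prod.mk.eta, Equiv.apply_symm_apply]
    exact (hm p).2 (Or.inl rfl)
  have h5 := Finset.card_le_card h4
  omega

end Pool.Agent.Helper48.K4
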