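import Pool.Agent.Helper15.K4.D

/-!
K4, block D2: blocks with different weight multiplicities are not linked.
-/

set_option autoImplicit false

open Matrix

namespace Pool.Agent.Helper48.K4

open Pool.Agent.Helper61.K4 Pool.Agent.Helper15.KN Pool.Agent.Helper15.K4

variable {X n K : Type} [DecidableEq X] [Fintype X] [Fintype n] [DecidableEq n] [Field K] [CharZero K]

/-- D2 -/
theorem not_link_of_weights [Nonempty n] (L : Submodule K (X → Matrix n n K)) {x x' : X}
    (hsep : ∃ (P : Finset ℤ) (R R' : ℤ → Matrix n n K), ∃ a ∈ L,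
      (∀ p q, R p * R q = if p = q then R p else 0) ∧ (∀ p q, R' p * R' q = if p = q then R' p else 0) ∧
      ∑ p ∈ P, R p = 1 ∧ ∑ p ∈ P, R' p = 1 ∧ (∀ p, p ∉ P → R p = 0) ∧ (∀ p, p ∉ P → R' p = 0) ∧
      a x = ∑ p ∈ P, (p : K) • R p ∧ a x' = ∑ p ∈ P, (p : K) • R' p ∧
      ∀ w : ℤ, (∃ p, (R p).rank ≠ (R' (w + p)).rank) ∧ ∃ p, (R p).rank ≠ (R' (w - p)).rank) :
    ¬ IsLink L x x' := by
  obtain ⟨P, R, R', a, ha, hmul, hmul', hsum, hsum', hsupp, hsupp', hax, hax', hw⟩ := hsep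
  obtain ⟨h1, -⟩ := rank_eig hmul hsum hsupp hax
  obtain ⟨h1', h2'⟩ := rank_eig hmul' hsum' hsupp' hax'
  obtain ⟨p₀, hp₀⟩ : ∃ p, (R p).rank ≠ 0 := by
    by_contra hcon
    push Not at hcon
    have h0 : ∀ p, R p = 0 := fun p => by
      have h3 := hcon p
      rw [Matrix.rank, Submodule.finrank_eq_zero, LinearMap.range_eq_bot] at h3
      refine Matrix.ext_of_mulVec_single fun i => ?_
      rw [Matrix.zero_mulVec]
      exact LinearMap.congr_fun h3 _
    have h3 : (1 : Matrix n n K) = 0 := by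
      rw [← hsum]
      exact Finset.sum_eq_zero fun p _ => h0 p
    exact one_ne_zero h3
  rintro ⟨T, hT, h | h⟩
  · obtain ⟨c, hc⟩ := h a ha
    obtain ⟨E, -, hE⟩ := equiv_of_matrix hT
    have h3 := finrank_iso E (hE _ _ _ hc)
    obtain ⟨q, hq⟩ : ∃ q : ℤ, (p₀ : K) + c = q := by
      by_contra hcon
      push Not at hcon
      apply hp₀
      rw [← h1, h3, h2' _ hcon]
    obtain ⟨p, hp⟩ := (hw (q - p₀)).1
    have e : (p : K) + c = ((q - p₀ + p : ℤ) : K) := by
      push_cast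
      rw [← hq]
      ring
    exact hp (by rw [← h1, h3, ← h1', e])
  · obtain ⟨c, hc⟩ := h a ha
    obtain ⟨E₀, hE₀, -⟩ := equiv_of_matrix hT
    let D := dotProductEquiv K n
    let E : (n → K) ≃ₗ[K] Module.Dual K (n → K) := E₀.trans D
    have hE1 : ∀ v w, E v w = (T *ᵥ v) ⬝ᵥ w := fun v w => by
      show D (E₀ v) w = _
      rw [hE₀]
      rfl
    have hE : (toLinAlgEquiv' (a x')).dualMap ∘ₗ E.toLinearMap + E.toLinearMap ∘ₗ toLinAlgEquiv' (a x) =
        c • E.toLinearMap := by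
      refine LinearMap.ext fun v => LinearMap.ext fun w => ?_
      show E v (a x' *ᵥ w) + E (a x *ᵥ v) w = c * E v w
      rw [hE1, hE1, hE1, ← smul_eq_mul, ← smul_dotProduct, ← Matrix.smul_mulVec, ← hc, Matrix.add_mulVec,
        add_dotProduct, ← Matrix.mulVec_mulVec, ← Matrix.mulVec_mulVec, Matrix.mulVec_transpose,
        Matrix.dotProduct_mulVec]
    have h3 := finrank_iso_dual E hE
    obtain ⟨q, hq⟩ : ∃ q : ℤ, c - (p₀ : K) = q := by
      by_contra hcon
      push Not at hcon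
      apply hp₀
      rw [← h1, h3, h2' _ hcon]
    obtain ⟨p, hp⟩ := (hw (q + p₀)).2
    have e : c - (p : K) = ((q + p₀ - p : ℤ) : K) := by
      push_cast
      rw [← hq]
      ring
    exact hp (by rw [← h1, h3, ← h1', e])

end Pool.Agent.Helper48.K4
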