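import Pool.Agent.Helper48.K4.B
import Pool.Agent.Helper61.K4.Defs

/-!
K4: no link at `ℓ`. A relation between the eigenvalues of a Frobenius element at `ℓ` is a relation at `r`, where the image is
large.
-/

set_option autoImplicit false

open Matrix H77MT Pool.Agent.Helper79.KN Pool.Agent.Helper61.K4

namespace Pool.Agent.Helper48.K4

variable {Γ X n K K₀ : Type} [Group Γ] [DecidableEq X] [Fintype X] [Fintype n] [DecidableEq n] [Field K] [Field K₀]

/-- There is no relation at `ℓ` in which an exponent is taken less than `N` times. -/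
theorem no_rel_at [CharZero K₀] {ρ₀ : Rep Γ X n K₀} {ρ : Rep Γ X n K} (hfull : IsFull ρ₀) (hC : IsCompats ρ₀ ρ)
    (Δ : Subgroup Γ) (hΔ : Δ.FiniteIndex) : ∃ γ ∈ Δ, ∃ u : X → n → K,
      (∀ x, (ρ x γ : Matrix n n K).charpoly = ∏ k, (Polynomial.X - Polynomial.C (u x k))) ∧
      ∀ (m : X → n → ℤ) (a : ℤ), ∏ x, ∏ k, u x k ^ m x k = 1 → (∃ x k, m x k = a) →
        Fintype.card n ≤ (Finset.univ.filter fun p : n × X => m p.2 p.1 = a).card := by
  obtain ⟨γ, hγ, u, hu, hrel⟩ := hC.frob Δ hΔ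
  refine ⟨γ, hγ, u, hu, fun m a hm hma => ?_⟩
  obtain ⟨x, k, hxk⟩ := hma
  by_contra hcard
  push Not at hcard
  obtain ⟨Δ', -, hΔ', hv⟩ := hrel m hm
  exact not_const' hxk hcard (no_rel_full (hfull Δ' hΔ') m hv)

/-- no link at `ℓ`, over block C -/
theorem not_link_of_rel [CharZero K₀] {ρ₀ : Rep Γ X n K₀} {ρ : Rep Γ X n K} (h4 : 4 < Fintype.card n)
    (hfull : IsFull ρ₀) (hC : IsCompats ρ₀ ρ) {P : Prop}
    (h : P → ∀ (γ : Γ) (u : X → n → K),
      (∀ x, (ρ x γ : Matrix n n K).charpoly = ∏ k, (Polynomial.X - Polynomial.C (u x k))) →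
      ∃ m : X → n → ℤ, ∏ x, ∏ k, u x k ^ m x k = 1 ∧ (∃ x k, m x k = 1) ∧
        (Finset.univ.filter fun p : n × X => m p.2 p.1 = 1).card ≤ 2) : ¬ P := by
  intro hP
  obtain ⟨γ, -, u, hu, hno⟩ := no_rel_at hfull hC ⊤ inferInstance
  obtain ⟨m, hm, hm1, hm2⟩ := h hP γ u hu
  have := hno m 1 hm hm1
  omega

end Pool.Agent.Helper48.K4
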