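import Pool.Agent.Helper98.KU.Crit

/-! Several families, all degrees: the criterion, with the Hodge-Tate weights at the places of large residual image only. -/

set_option autoImplicit false

open Matrix H77MT Pool.Agent.Helper79.KN Pool.Agent.Helper79.KQ Pool.Agent.Helper61.K4 Pool.Agent.Helper98.KU

namespace Pool.Agent.Helper48.K4.Sys

section blocks
variable {Γ X T n : Type} [Group Γ] [DecidableEq X] [Fintype X] [Fintype n] [DecidableEq n]

/-- the blocks at every `i` -/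
theorem blocks {I : Type} {K : I → Type} [∀ i, Field (K i)] [∀ i, IsAlgClosed (K i)] [∀ i, CharZero (K i)]
    {ρ : ∀ i, Rep Γ X n (K i)} {h : T → X → ℤ → ℕ} (h4 : 4 < Fintype.card n)
    (hasym : ∀ x, ∃ t, ∀ w : ℤ, ∃ p, h t x p ≠ h t x (w - p))
    (hC : IsSystem ρ) (hB : ∀ x, ∃ i, HasHT (ρ i) h ∧ IsBigAt (ρ i) x) (i : I) (Δ : Subgroup Γ)
    (hΔ : Δ.FiniteIndex) (x : X) (c : Matrix n n (K i)) (hc : c.trace = 0) : ∃ a ∈ fam (ρ i) Δ, a x = c := by
  classical
  choose j hj using hB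
  have hfull : ∀ (x : X) (Δ : Subgroup Γ), Δ.FiniteIndex → ∀ M : Matrix n n (K (j x)), M.det = 1 →
      M ∈ zcl {s | ∃ γ ∈ Δ, s = (ρ (j x) x γ : Matrix n n (K (j x)))} := fun x Δ hΔ M hM =>
    full_at (ρ (j x)) h4 x (hasym x) (hj x).2 (hj x).1 Δ hΔ M hM
  obtain ⟨γ, hγ, u, hu, hrel⟩ := hC.frob Δ hΔ
  have hind : ∀ (x : X) (m : n → ℤ), ∏ k, u i x k ^ m k = 1 → ∀ k l, m k = m l := by
    intro x m hm
    obtain ⟨Δ', _, hfin, h1⟩ := hrel i (j x) x m hm
    exact Pool.Agent.Helper79.KM.no_rel (ρ := ρ (j x) x) (Δ := Δ') (hfull x Δ' hfin) m h1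
  have hirr : ∀ (x : X) (Δ : Subgroup Γ), Δ.FiniteIndex → ∀ W : Submodule (K i) (n → K i),
      (∀ γ ∈ Δ, ∀ w ∈ W, (ρ i x γ : Matrix n n (K i)) *ᵥ w ∈ W) → W = ⊥ ∨ W = ⊤ := by
    intro x Δ hΔ W hW
    by_contra hcon
    push Not at hcon
    obtain ⟨Δ', ψ, hle, hfin, hψ⟩ := hC.det i (j x) x Δ hΔ W hW
    have h1 : 0 < Module.finrank (K i) W := by
      rw [Nat.pos_iff_ne_zero]
      intro h0
      exact hcon.1 (Submodule.finrank_eq_zero.1 h0)
    have h2 : Module.finrank (K i) W < Fintype.card n := by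
      have := Submodule.finrank_lt hcon.2
      rwa [Module.finrank_fintype_fun_eq_card] at this
    exact Pool.Agent.Helper79.KM.no_char (ρ := ρ (j x) x) ψ h1 h2 (hfull x Δ' hfin) hψ
  obtain ⟨M', h1, h2⟩ := Pool.Agent.Helper31.KN.full_l (ρ i) Δ hΔ hγ (u i) (hu i) hind x (hirr x) c hc
  exact ⟨M', h2, h1⟩

end blocks

section pair
variable {Γ X T n S : Type} [Group Γ] [DecidableEq X] [Fintype X] [Fintype n] [DecidableEq n]
variable {I : Type} {K : I → Type} [∀ i, Field (K i)] [∀ i, IsAlgClosed (K i)] [∀ i, CharZero (K i)]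
  {ρ : ∀ i, Rep Γ X n (K i)} {h : T → X → ℤ → ℕ} {cl : X → S}

/-- the pair is full where one of its members is large -/
theorem pair_full (h4 : 4 < Fintype.card n) (hS : IsSeps cl h)
    (hC : IsSystem ρ) (hB : ∀ x, ∃ i, HasHT (ρ i) h ∧ IsBigAt (ρ i) x) {i : I} {x x' : X}
    (hHT : HasHT (ρ i) h) (hx : IsBigAts cl (ρ i) x) (hne : x ≠ x') : IsFull (pr (ρ i) x x') := by
  classical
  intro Δ hΔ M hM
  have := hΔ
  have hfin : Δ.normalCore.FiniteIndex := inferInstance
  let f : Bool → X := fun b => if b then x else x'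
  have hb : ∀ (b : Bool) (c : Matrix n n (K i)), c.trace = 0 → ∃ a ∈ fam (pr (ρ i) x x') Δ.normalCore, a b = c :=
    fun b c hc => blocks (ρ := fun i => pr (ρ i) x x') (h := fun t b => h t (f b)) h4 (fun b => hS.asym (f b))
      (isSystem_comp f hC) (fun b => by
        obtain ⟨i, hi, hi'⟩ := hB (f b)
        exact ⟨i, hasHT_comp (ρ i) f hi, hi'⟩) i Δ.normalCore hfin b c hc
  obtain ⟨O, hint, hchar, y, hy, z, hz, hyz⟩ := exists_unips h4 hx
  have hno : ¬ IsLink (fam (pr (ρ i) x x') Δ.normalCore) true false := by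
    by_cases hcl : cl x = cl x'
    · obtain ⟨t, ht⟩ := hS.sep x x' hne hcl
      obtain ⟨P, R, hR⟩ := hHT t
      have hR' := isHT_comp (ρ i) f hR
      have : Nonempty n := Fintype.card_pos_iff.1 (by omega)
      refine not_link_of_weights _ ⟨P, R x, R x', _, ht_fam hR' Δ.normalCore hfin, hR.mul x, hR.mul x', hR.sum x,
        hR.sum x', hR.supp x, hR.supp x', rfl, rfl, fun w => ?_⟩
      simp only [hR.rank]
      exact ht w
    refine Pool.Agent.Helper43.K4.not_link_resid O h4 hchar inferInstance (x := true) (x' := false)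
      (fun γ a b => hint x' γ a b) (hb true) hy.1 hz.1 hyz ?_
    have hU : ∀ w ∈ Unips cl (ρ i) x O, ∃ (γ : Γ) (M M' : Matrix n n O),
        (pr (ρ i) x x' true γ : Matrix n n (K i)) = M.map (algebraMap O (K i)) ∧ M.map (IsLocalRing.residue O) = 1 + w ∧
        (pr (ρ i) x x' false γ : Matrix n n (K i)) = M'.map (algebraMap O (K i)) ∧
        M'.map (IsLocalRing.residue O) = 1 := by
      rintro w ⟨-, γ, ⟨M, hM1, hM2⟩, hoth⟩
      obtain ⟨M', hM3, hM4⟩ := hoth x' (Ne.symm hcl)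
      exact ⟨γ, M, M', hM1, hM2, hM3, hM4⟩
    rintro w (rfl | rfl)
    · exact hU _ hy
    · exact hU _ hz
  refine zcl_mono (img_mono _ (Subgroup.normalCore_le Δ)) ?_
  refine full_of_LL _ Δ.normalCore (fun a ha => ?_) M hM
  refine Pool.Agent.Helper15.K4.goursat_link (fam (pr (ρ i) x x') Δ.normalCore) (fam_br _ _) hb ?_ a ha
  intro b b' hbb hl
  cases b <;> cases b'
  · exact hbb rfl
  · exact hno (link_symm hl)
  · exact hno hl
  · exact hbb rfl

/-- no link at any prime -/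
theorem no_link (h4 : 4 < Fintype.card n) (hS : IsSeps cl h)
    (hC : IsSystems ρ) (hB : ∀ x, ∃ i, HasHT (ρ i) h ∧ IsBigAts cl (ρ i) x) {j : I} {x x' : X}
    (hne : x ≠ x') (Δ : Subgroup Γ) (hn : Δ.Normal) (hΔ : Δ.FiniteIndex) : ¬ IsLink (fam (ρ j) Δ) x x' := by
  classical
  have hB' : ∀ x, ∃ i, HasHT (ρ i) h ∧ IsBigAt (ρ i) x := fun x => by
    obtain ⟨i, hi, hi'⟩ := hB x
    exact ⟨i, hi, isBigAt_conv hi'⟩
  have hC' := isSystem_conv hC
  obtain ⟨i, hi, hi'⟩ := hB x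
  have hfull := pair_full h4 hS hC' hB' hi hi' hne
  intro hl
  obtain ⟨γ, hγ, u, hu, hrel⟩ := hC.frob Δ hΔ
  obtain ⟨m, hm, hm0, hm1, hm2⟩ := Pool.Agent.Helper35.K4.rel_of_link h4 hn hne
    (fun c hc => blocks h4 hS.asym hC' hB' j Δ hΔ x c hc) hl (γ := γ) (u := u j) (hu j)
  obtain ⟨Δ', hle, hfin, hv⟩ := hrel j i m hm
  let f : Bool → X := fun b => if b then x else x'
  have hf : Function.Injective f := by
    intro b b' hbb
    cases b <;> cases b' <;> simp [f] at hbb ⊢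
    · exact hne hbb.symm
    · exact hne hbb
  have hcon := Pool.Agent.Helper48.K4.no_rel_full (hfull Δ' hfin) (fun b => m (f b)) (fun γ' hγ' => by
    obtain ⟨v, hv1, hv2⟩ := hv γ' hγ'
    refine ⟨fun b => v (f b), fun b => hv1 (f b), ?_⟩
    rw [Fintype.prod_bool]
    rw [Finset.prod_eq_mul x x' hne] at hv2
    · exact hv2
    · intro y _ hy
      simp [hm0 y hy.1 hy.2]
    · simp
    · simp)
  obtain ⟨y, k, hyk⟩ := hm1
  obtain ⟨b, hb⟩ : ∃ b, f b = y := by
    by_contra hc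
    push Not at hc
    have h1 := hm0 y (fun h => hc true h.symm) (fun h => hc false h.symm) k
    omega
  refine Pool.Agent.Helper48.K4.not_const' (m := fun b => m (f b)) (a := 1) (x₀ := b) (k₀ := k) (by rw [← hyk, ← hb]) ?_ hcon
  have h1 : (Finset.univ.filter fun p : n × Bool => m (f p.2) p.1 = 1).card ≤
      (Finset.univ.filter fun p : n × X => m p.2 p.1 = 1).card := by
    refine Finset.card_le_card_of_injOn (fun p => (p.1, f p.2)) ?_ ?_
    · intro p hp
      rw [Finset.mem_coe, Finset.mem_filter] at hp ⊢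
      exact ⟨Finset.mem_univ _, hp.2⟩
    · intro p _ q _ hpq
      rw [Prod.ext_iff] at hpq
      exact Prod.ext hpq.1 (hf hpq.2)
  omega

/-- **The criterion for several families.** -/
theorem systems (h4 : 4 < Fintype.card n) (hS : IsSeps cl h) (hC : IsSystems ρ)
    (hB : ∀ x, ∃ i, HasHT (ρ i) h ∧ IsBigAts cl (ρ i) x) (i : I) : IsFull (ρ i) := by
  classical
  intro Δ hΔ M hM
  have := hΔ
  have hfin : Δ.normalCore.FiniteIndex := inferInstance
  have hB' : ∀ x, ∃ i, HasHT (ρ i) h ∧ IsBigAt (ρ i) x := fun x => by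
    obtain ⟨i, hi, hi'⟩ := hB x
    exact ⟨i, hi, isBigAt_conv hi'⟩
  refine zcl_mono (img_mono _ (Subgroup.normalCore_le Δ)) ?_
  refine full_of_LL _ Δ.normalCore (fun a ha => ?_) M hM
  exact Pool.Agent.Helper15.K4.goursat_link (fam (ρ i) Δ.normalCore) (fam_br _ _)
    (fun x c hc => blocks h4 hS.asym (isSystem_conv hC) hB' i Δ.normalCore hfin x c hc)
    (fun x x' hne => no_link h4 hS hC hB hne Δ.normalCore inferInstance hfin) a ha

end pair

end Pool.Agent.Helper48.K4.Sys
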